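import Pool.Agent.Work.MP_2482e4_mp.Pv.A

/-!
The generic measures form a prevalent set.
-/

open scoped Topology ContDiff
open Filter Set MeasureTheory Module

namespace Pool.Agent.Work.MP_2482e4_mp.Pv

open Pool.Agent.Work.MP_2482e4_mp.Gn

theorem nd_inj : Function.Injective fun k : ℕ => (nd k : ℝ) := fun a b h => by
  have h1 : (1 : ℝ) / ((a : ℝ) + 1) = 1 / ((b : ℝ) + 1) := h
  rw [div_eq_div_iff (by positivity) (by positivity)] at h1
  exact Nat.cast_injective (R := ℝ) (by linarith)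

theorem nodes (m J : ℕ) : ∃ D : ℕ, ∀ t : Fin m → ℝ, Function.Injective t → (∀ i, 1 < t i) →
    ∀ (lam : Fin m × Fin J → ℝ) (c : ℝ),
      (∀ j : Finset.range D, ∑ p, lam p * kk p.2 (nd j) (t p.1) = c) → lam = 0 := by
  refine ⟨m * ((J + 1) * 2) + J + 1 + 1, fun t hinj ht lam c h => ?_⟩
  have hP : Span_P J t ≠ 0 := fun e => Span_ne J ht le_rfl (by rw [e, Polynomial.eval_zero])
  obtain ⟨N, hN, hev⟩ := Span_N t hP lam c
  have h0 : N = 0 := by
    refine Polynomial.eq_zero_of_natDegree_lt_card_of_eval_eq_zero N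
      (f := fun j : Finset.range (m * ((J + 1) * 2) + J + 1 + 1) => (nd j : ℝ))
      (fun a b e => Subtype.ext (nd_inj e)) (fun j => ?_) ?_
    · rw [hev _ (Span_ne J ht (nd j).2.1), sub_eq_zero.2 (h j), mul_zero]
    · rw [Fintype.card_coe, Finset.card_range]
      exact Nat.lt_succ_of_le hN
  have h1 (a : ℝ) : ∀ᶠ s in 𝓝[≠] a, ∑ p, lam p * kk p.2 s (t p.1) = c := by
    filter_upwards [nhdsNE_le_cofinite a
      (Polynomial.finite_setOfPred_isRoot hP).compl_mem_cofinite] with s hs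
    have h2 := hev s hs
    rw [h0, Polynomial.eval_zero] at h2
    exact sub_eq_zero.1 ((mul_eq_zero.1 h2.symm).resolve_left hs)
  funext ⟨i, k⟩
  induction k using WellFoundedGT.induction with
  | ind k ih => exact Span_step hinj ht i k ih (h1 _)

theorem null_avoid {X ι : Type} [NormedAddCommGroup X] [NormedSpace ℝ X] [FiniteDimensional ℝ X]
    [Fintype ι] {r : ℕ} (hr : finrank ℝ X < r) {f : X × (ι → ℝ) → Fin r → ℝ}
    {U : Set (X × (ι → ℝ))}
    (h : ∀ x ∈ U, ∃ f' : (X × (ι → ℝ)) →L[ℝ] (Fin r → ℝ),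
      HasStrictFDerivAt f f' x ∧ Function.Surjective f')
    (h0 : ∀ x ∈ U, f x = 0) : volume (Prod.snd '' U) = 0 := by
  rcases U.eq_empty_or_nonempty with rfl | ⟨x, hx⟩
  · simp
  obtain ⟨f', -, hs⟩ := h x hx
  have k := LinearMap.finrank_le_finrank_of_surjective (f := f'.toLinearMap) hs
  have hd : dimH (Prod.snd '' U) < (Fintype.card ι : NNReal) := by
    refine (LipschitzWith.prod_snd.dimH_image_le U).trans_lt ((dimH_level h h0).trans_lt ?_)
    simp only [finrank_prod, finrank_fintype_fun_eq_card, Fintype.card_fin] at k ⊢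
    rw [ENNReal.coe_natCast, Nat.cast_lt]
    omega
  have := hausdorffMeasure_of_dimH_lt hd
  rwa [NNReal.coe_natCast, hausdorffMeasure_pi_real] at this

/-- Points, coefficients and the last coefficient. -/
abbrev Par (m d : ℕ) := (Fin m → ℝ) × (Fin d → ℝ) × ℝ

/-- The jets of the combination. -/
noncomputable def YY {m d : ℕ} (ν : Fin d → PrI) (σ : PrI) (x : Par m d) (p : Fin m × ℕ) : ℝ :=
  ∑ i, x.2.1 i * jt p.2 (ν i) (x.1 p.1) + x.2.2 * jt p.2 σ (x.1 p.1)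

/-- The jets of the combination with finitely many free weights. -/
noncomputable def FF {m d D : ℕ} (ν : Fin d → PrI) (ρ : PrI)
    (x : Par m d × (Finset.range D → ℝ)) (p : Fin m × ℕ) : ℝ :=
  YY ν ρ x.1 p + x.1.2.2 * ∑ j : Finset.range D,
    wt j * x.2 j * (kk p.2 (nd j) (x.1.1 p.1) - kk p.2 0 (x.1.1 p.1))

theorem FF_contDiffAt {m d D : ℕ} (ν : Fin d → PrI) (ρ : PrI)
    {x : Par m d × (Finset.range D → ℝ)} (hx : ∀ i, 0 < x.1.1 i) (p : Fin m × ℕ) :
    ContDiffAt ℝ 1 (fun x => FF ν ρ x p) x := by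
  unfold FF YY
  have hc : ContDiffAt ℝ 1 (fun x : Par m d × (Finset.range D → ℝ) => x.1.1 p.1) x := by fun_prop
  have h1 : ∀ σ : PrI, ContDiffAt ℝ 1
      (fun x : Par m d × (Finset.range D → ℝ) => jt p.2 σ (x.1.1 p.1)) x := fun σ =>
    ContDiffAt.comp x (g := jt p.2 σ)
      (((jt_contDiffOn p.2 σ).contDiffAt (Ioi_mem_nhds (hx p.1))).of_le (by simp)) hc
  have h2 : ∀ c : ℝ, 0 ≤ c → ContDiffAt ℝ 1
      (fun x : Par m d × (Finset.range D → ℝ) => kk p.2 c (x.1.1 p.1)) x := fun c h =>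
    ContDiffAt.comp x (g := kk p.2 c) (Baire_kk_contDiffAt p.2 h (hx p.1)) hc
  refine ((ContDiffAt.sum fun i _ => ContDiffAt.mul (by fun_prop) (h1 _)).add
    (ContDiffAt.mul (by fun_prop) (h1 _))).add (ContDiffAt.mul (by fun_prop) ?_)
  exact ContDiffAt.sum fun j _ =>
    ContDiffAt.mul (by fun_prop) ((h2 _ (nd j).2.1).sub (h2 0 le_rfl))

/-- The direction of one weight. -/
def ee (m d : ℕ) {D : ℕ} (j : Finset.range D) : Par m d × (Finset.range D → ℝ) :=
  (0, Pi.single j 1)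

theorem FF_line {m d D : ℕ} (ν : Fin d → PrI) (ρ : PrI) (x : Par m d × (Finset.range D → ℝ))
    (j : Finset.range D) (p : Fin m × ℕ) :
    HasDerivAt (fun ε : ℝ => FF ν ρ (x + ε • ee m d j) p)
      (x.1.2.2 * wt j * (kk p.2 (nd j) (x.1.1 p.1) - kk p.2 0 (x.1.1 p.1))) 0 := by
  have e : (fun ε : ℝ => FF ν ρ (x + ε • ee m d j) p) = fun ε => FF ν ρ x p
      + ε * (x.1.2.2 * wt j * (kk p.2 (nd j) (x.1.1 p.1) - kk p.2 0 (x.1.1 p.1))) := by
    funext ε
    simp only [FF, ee, Prod.fst_add, Prod.smul_fst, smul_zero, add_zero, Prod.snd_add,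
      Prod.smul_snd, Pi.add_apply, Pi.smul_apply, smul_eq_mul, mul_add, add_mul,
      Finset.sum_add_distrib]
    have e2 : ∑ i : Finset.range D, wt i * (ε * (Pi.single j (1 : ℝ) : Finset.range D → ℝ) i)
        * (kk p.2 (nd i) (x.1.1 p.1) - kk p.2 0 (x.1.1 p.1))
        = wt j * ε * (kk p.2 (nd j) (x.1.1 p.1) - kk p.2 0 (x.1.1 p.1)) := by
      simp [Pi.single_apply]
    rw [e2]
    ring
  rw [e]
  simpa using ((hasDerivAt_id (0 : ℝ)).mul_const
    (x.1.2.2 * wt j * (kk p.2 (nd j) (x.1.1 p.1) - kk p.2 0 (x.1.1 p.1)))).const_add (FF ν ρ x p)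

theorem step {m d r : ℕ} (hr : m + d + 1 < r) (Q : Fin r → MvPolynomial (Fin m × ℕ) ℚ)
    (v : Fin r → Fin m × ℕ) (hQ : ∀ a b, a ≠ b → MvPolynomial.pderiv (v b) (Q a) = 0) :
    ∃ D : ℕ, ∀ (ν : Fin d → PrI) (ρ : PrI), volume (Prod.snd ''
      {x : Par m d × (Finset.range D → ℝ) | (∀ i, 1 < x.1.1 i) ∧ Function.Injective x.1.1 ∧
        x.1.2.2 ≠ 0 ∧ (∀ a, MvPolynomial.aeval (FF ν ρ x) (Q a) = 0) ∧
        ∀ a, MvPolynomial.aeval (FF ν ρ x) (MvPolynomial.pderiv (v a) (Q a)) ≠ 0}) = 0 := by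
  classical
  choose S₀ hS₀ using fun a => Baire_aeval_deriv (Q a)
  obtain ⟨J, hJ1, hJ2⟩ : ∃ J : ℕ, (∀ a, ∀ p ∈ S₀ a, p.2 < J) ∧ ∀ a, (v a).2 < J := by
    refine ⟨(Finset.univ.sup fun a => (S₀ a).sup fun p => p.2)
      + (Finset.univ.sup fun a => (v a).2) + 1, fun a p hp => ?_, fun a => ?_⟩
    · have h2 : p.2 ≤ (S₀ a).sup fun p => p.2 := Finset.le_sup (f := fun p : Fin m × ℕ => p.2) hp
      have h3 : ((S₀ a).sup fun p => p.2) ≤ Finset.univ.sup fun a => (S₀ a).sup fun p => p.2 :=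
        Finset.le_sup (f := fun a => (S₀ a).sup fun p => p.2) (Finset.mem_univ a)
      omega
    · have h3 : (v a).2 ≤ Finset.univ.sup fun a => (v a).2 :=
        Finset.le_sup (f := fun a => (v a).2) (Finset.mem_univ a)
      omega
  obtain ⟨D, hs⟩ := nodes m J
  refine ⟨D, fun ν ρ => ?_⟩
  let em : Fin m × Fin J ↪ Fin m × ℕ :=
    ⟨fun q => (q.1, (q.2 : ℕ)), fun q q' h => by
      simp only [Prod.mk.injEq] at h
      exact Prod.ext h.1 (Fin.ext h.2)⟩
  have hS : ∀ a, S₀ a ⊆ Finset.univ.map em := fun a p hp =>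
    Finset.mem_map.mpr ⟨(p.1, ⟨p.2, hJ1 a p hp⟩), Finset.mem_univ _, rfl⟩
  let f : Par m d × (Finset.range D → ℝ) → Fin r → ℝ := fun x a =>
    MvPolynomial.aeval (FF ν ρ x) (Q a)
  refine null_avoid (f := f) (r := r) ?_ ?_ fun x hx => funext hx.2.2.2.1
  · simp only [finrank_prod, finrank_fintype_fun_eq_card, Fintype.card_fin, finrank_self]
    omega
  rintro x ⟨hx1, hx2, hx3, -, hx4⟩
  have hcd : ContDiffAt ℝ 1 f x := contDiffAt_pi.mpr fun a =>
    Baire_aeval_contDiffAt (FF_contDiffAt ν ρ fun i => lt_trans one_pos (hx1 i)) (Q a)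
  have hst := hcd.hasStrictFDerivAt one_ne_zero
  refine ⟨_, hst, ?_⟩
  set f' := fderiv ℝ f x with hf'
  have hdir : ∀ (j : Finset.range D) (a : Fin r), f' (ee m d j) a =
      ∑ q : Fin m × Fin J, MvPolynomial.aeval (FF ν ρ x) (MvPolynomial.pderiv (em q) (Q a))
        * (x.1.2.2 * wt j * (kk q.2 (nd j) (x.1.1 q.1) - kk q.2 0 (x.1.1 q.1))) := by
    intro j a
    have d1 : HasDerivAt (fun ε : ℝ => f (x + ε • ee m d j)) (f' (ee m d j)) 0 :=
      hst.hasFDerivAt.hasLineDerivAt _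
    have d2 := hasDerivAt_pi.mp d1 a
    have d3 := hS₀ a (Finset.univ.map em) (hS a) (fun ε : ℝ => FF ν ρ (x + ε • ee m d j))
      (fun p => x.1.2.2 * wt j * (kk p.2 (nd j) (x.1.1 p.1) - kk p.2 0 (x.1.1 p.1)))
      (fun p => FF_line ν ρ x j p)
    rw [d2.unique d3, Finset.sum_map]
    simp only [zero_smul, add_zero]
    rfl
  by_contra hne
  have hlt : LinearMap.range (f' : (Par m d × (Finset.range D → ℝ)) →ₗ[ℝ] (Fin r → ℝ)) < ⊤ := by
    rw [lt_top_iff_ne_top]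
    intro h
    exact hne (LinearMap.range_eq_top.mp h)
  obtain ⟨φ, hφ0, hφ⟩ := Submodule.exists_le_ker_of_lt_top _ hlt
  have hφe : ∀ y : Fin r → ℝ, φ y = ∑ a, y a * φ (Pi.single a 1) := by
    intro y
    conv_lhs => rw [pi_eq_sum_univ' y]
    simp
  let lam : Fin m × Fin J → ℝ := fun q => ∑ a, φ (Pi.single a 1) *
    MvPolynomial.aeval (FF ν ρ x) (MvPolynomial.pderiv (em q) (Q a))
  have hlam : lam = 0 := by
    refine hs x.1.1 hx2 hx1 lam (∑ q, lam q * kk q.2 0 (x.1.1 q.1)) fun j => ?_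
    have h2 : φ (f' (ee m d j)) = 0 := hφ ⟨_, rfl⟩
    rw [hφe] at h2
    simp only [hdir] at h2
    have h3 : x.1.2.2 * wt j * (∑ q, lam q * kk q.2 (nd j) (x.1.1 q.1)
        - ∑ q, lam q * kk q.2 0 (x.1.1 q.1)) = 0 := by
      refine Eq.trans ?_ h2
      rw [← Finset.sum_sub_distrib, Finset.mul_sum]
      simp only [Finset.sum_mul]
      rw [Finset.sum_comm]
      refine Finset.sum_congr rfl fun q _ => ?_
      simp only [lam, Finset.sum_mul, ← Finset.sum_sub_distrib, Finset.mul_sum]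
      exact Finset.sum_congr rfl fun a _ => by ring
    exact sub_eq_zero.mp ((mul_eq_zero.mp h3).resolve_left (mul_ne_zero hx3 (wt_pos _).ne'))
  have hμ : ∀ b, φ (Pi.single b 1) = 0 := by
    intro b
    have h2 := congrFun hlam ((v b).1, ⟨(v b).2, hJ2 b⟩)
    have h3 : em ((v b).1, ⟨(v b).2, hJ2 b⟩) = v b := rfl
    simp only [lam, h3, Pi.zero_apply] at h2
    rw [Finset.sum_eq_single b (fun a _ hab => by rw [hQ a b hab]; simp) (by simp)] at h2
    exact (mul_eq_zero.mp h2).resolve_right (hx4 b)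
  refine hφ0 (LinearMap.ext fun y => ?_)
  rw [hφe]
  simp [hμ]

/-- Measures with a combination whose jets satisfy given relations regularly at some well
separated configuration. -/
def BadP {m d r : ℕ} (ν : Fin d → PrI) (Q : Fin r → MvPolynomial (Fin m × ℕ) ℚ)
    (v : Fin r → Fin m × ℕ) (N : ℕ) : Set PrI :=
  {σ | ∃ x : Par m d, x ∈ Icc ((fun _ => 1 + 1 / ((N : ℝ) + 1), fun _ => -(N : ℝ), -(N : ℝ)) :
      Par m d) (fun _ => (N : ℝ), fun _ => (N : ℝ), (N : ℝ)) ∧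
    (∀ i j, i ≠ j → 1 / ((N : ℝ) + 1) ≤ |x.1 i - x.1 j|) ∧ 1 / ((N : ℝ) + 1) ≤ |x.2.2| ∧
    ∀ a, MvPolynomial.aeval (YY ν σ x) (Q a) = 0 ∧
      1 / ((N : ℝ) + 1) ≤ |MvPolynomial.aeval (YY ν σ x) (MvPolynomial.pderiv (v a) (Q a))|}

theorem badP_closed {m d r : ℕ} (ν : Fin d → PrI) (Q : Fin r → MvPolynomial (Fin m × ℕ) ℚ)
    (v : Fin r → Fin m × ℕ) (N : ℕ) : IsClosed (BadP ν Q v N) := by
  set T : Set (Par m d) := Icc ((fun _ => 1 + 1 / ((N : ℝ) + 1), fun _ => -(N : ℝ), -(N : ℝ)) :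
      Par m d) (fun _ => (N : ℝ), fun _ => (N : ℝ), (N : ℝ)) with hT
  have : CompactSpace T := isCompact_iff_compactSpace.mp isCompact_Icc
  have hpos : ∀ (t : T) (i : Fin m), 0 < t.1.1 i := fun t i =>
    lt_of_lt_of_le (by positivity) (t.2.1.1 i)
  have hc : ∀ i : Fin m, Continuous fun x : PrI × T => x.2.1.1 i := fun i => by fun_prop
  have hj : ∀ (τ : PrI × T → PrI), Continuous τ → ∀ p : Fin m × ℕ,
      Continuous fun x : PrI × T => jt p.2 (τ x) (x.2.1.1 p.1) := by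
    intro τ hτ p
    have h1 : Continuous fun x : PrI × T => (τ x, x.2.1.1 p.1) := hτ.prodMk (hc p.1)
    exact (jt_continuousOn p.2).comp_continuous h1 fun x => hpos x.2 p.1
  have hY : ∀ p : Fin m × ℕ, Continuous fun x : PrI × T => YY ν x.1 x.2.1 p := fun p =>
    (continuous_finsetSum _ fun i _ => Continuous.mul (by fun_prop)
      (hj (fun _ => ν i) continuous_const p)).add
      (Continuous.mul (by fun_prop) (hj Prod.fst continuous_fst p))
  set C : Set (PrI × T) := {x | (∀ i j, i ≠ j → 1 / ((N : ℝ) + 1) ≤ |x.2.1.1 i - x.2.1.1 j|) ∧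
    1 / ((N : ℝ) + 1) ≤ |x.2.1.2.2| ∧
    ∀ a, MvPolynomial.aeval (YY ν x.1 x.2.1) (Q a) = 0 ∧
      1 / ((N : ℝ) + 1) ≤ |MvPolynomial.aeval (YY ν x.1 x.2.1)
        (MvPolynomial.pderiv (v a) (Q a))|} with hC
  have hCc : IsClosed C := by
    rw [hC, ofPred_and, ofPred_and]
    refine IsClosed.inter ?_ (IsClosed.inter ?_ ?_)
    · simp only [ofPred_forall]
      refine isClosed_iInter fun i => isClosed_iInter fun j => isClosed_iInter fun _ => ?_
      exact isClosed_le continuous_const ((hc i).sub (hc j)).abs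
    · exact isClosed_le continuous_const (by fun_prop)
    · simp only [ofPred_forall, ofPred_and]
      refine isClosed_iInter fun a => IsClosed.inter ?_ ?_
      · exact isClosed_eq (Baire_aeval_cont hY _) continuous_const
      · exact isClosed_le continuous_const (Baire_aeval_cont hY _).abs
  have e : BadP ν Q v N = Prod.fst '' C := by
    ext σ
    constructor
    · rintro ⟨x, h1, h2⟩
      exact ⟨(σ, ⟨x, h1⟩), h2, rfl⟩
    · rintro ⟨x, h2, rfl⟩
      exact ⟨x.2.1, x.2.2, h2⟩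
  rw [e]
  exact isClosedMap_fst_of_compactSpace C hCc

theorem badP_null {Λ : Om → PrI} (hΛ : ∀ (u : Om) (g : Icc (0 : ℝ) 1 → ℝ), Continuous g →
    ∫ s, g s ∂(Λ u : Measure (Icc (0 : ℝ) 1)) =
      g nz + ∑' k, wt k * u k * (g (nd k) - g nz)) {m d r : ℕ} (hr : m + d + 1 < r)
    (ν : Fin d → PrI) (Q : Fin r → MvPolynomial (Fin m × ℕ) ℚ) (v : Fin r → Fin m × ℕ)
    (hQ : ∀ a b, a ≠ b → MvPolynomial.pderiv (v b) (Q a) = 0) (N : ℕ) :
    PP (Λ ⁻¹' BadP ν Q v N) = 0 := by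
  obtain ⟨D, hD⟩ := step hr Q v hQ
  refine null_of_sections D ((badP_closed ν Q v N).preimage (Lam_cont hΛ)).measurableSet
    fun u => measure_mono_null ?_ (res_null D (hD ν (Λ (glue D (u, 0)))))
  rintro w ⟨x, h1, h2, h3, h4⟩
  have hN : (0 : ℝ) < 1 / ((N : ℝ) + 1) := by positivity
  have ht : ∀ i, 1 < x.1 i := fun i => by
    have : 1 + 1 / ((N : ℝ) + 1) ≤ x.1 i := h1.1.1 i
    linarith
  have hjet : YY ν (Λ (glue D (u, w))) x = FF ν (Λ (glue D (u, 0))) (x, res D w) := by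
    funext p
    have := Lam_glue hΛ D u w (kk_continuous p.2 (lt_trans one_pos (ht p.1)))
    simp only [FF, YY, jt]
    rw [this, mul_add, add_assoc]
    rfl
  rw [hjet] at h4
  refine ⟨(x, res D w), ⟨ht, fun i j hij => ?_, fun h => ?_, fun a => (h4 a).1, fun a h => ?_⟩, rfl⟩
  · by_contra hne
    have := h2 i j hne
    have hij' : x.1 i = x.1 j := hij
    rw [hij', sub_self, abs_zero] at this
    linarith
  · have h' : x.2.2 = 0 := h
    rw [h', abs_zero] at h3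
    linarith
  · have := (h4 a).2
    rw [h, abs_zero] at this
    linarith

/-- The measures outside all the closed sets of codimension at least four. -/
def GG : Set PrI :=
  {ν | ∀ (m : ℕ) (Q : Fin (m + 2 + 2) → MvPolynomial (Fin m × ℕ) ℚ)
    (v : Fin (m + 2 + 2) → Fin m × ℕ) (N : ℕ),
    (∀ a b, a ≠ b → MvPolynomial.pderiv (v b) (Q a) = 0) → ν ∉ Bad Q v N}

theorem GG_gdelta : IsGδ GG := by
  have : ∀ m : ℕ, Countable (MvPolynomial (Fin m × ℕ) ℚ) := fun m =>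
    AddMonoidAlgebra.coeff_injective.countable
  simp only [GG, ofPred_forall]
  refine IsGδ.iInter fun m => IsGδ.iInter fun Q => IsGδ.iInter fun v => IsGδ.iInter fun N =>
    IsGδ.iInter fun _ => ?_
  exact (bad_closed Q v N).isOpen_compl.isGδ

theorem small_ev {c : ℝ} (hc : 0 < c) : ∀ᶠ N : ℕ in atTop, 1 / ((N : ℝ) + 1) ≤ c :=
  tendsto_one_div_add_atTop_nhds_zero_nat.eventually (ge_mem_nhds hc)

theorem big_ev (c : ℝ) : ∀ᶠ N : ℕ in atTop, -(N : ℝ) ≤ c ∧ c ≤ N := by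
  filter_upwards [tendsto_natCast_atTop_atTop.eventually_ge_atTop |c|] with N h
  exact abs_le.1 h

theorem GG_prevalent : IsPrevalent GG := by
  classical
  obtain ⟨Λ, hΛ⟩ := exists_Lam
  have hm : @Measurable Om PrI _ (borel PrI) Λ :=
    @Continuous.measurable _ _ _ _ _ _ (borel PrI) (@BorelSpace.mk _ _ (borel PrI) rfl) _
      (Lam_cont hΛ)
  have hcl : ∀ B : Set PrI, IsClosed B → @MeasurableSet PrI (borel PrI) B := fun B hB =>
    @IsClosed.measurableSet _ _ _ (borel PrI)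
      (@BorelSpace.opensMeasurable _ _ (borel PrI) (@BorelSpace.mk _ _ (borel PrI) rfl)) hB
  refine ⟨@Measure.map Om PrI _ (borel PrI) Λ PP, ?_, fun ν₁ ν₂ => ?_⟩
  · rw [@Measure.map_apply Om PrI _ (borel PrI) PP Λ hm _ (hcl _ isClosed_univ)]
    simp
  have : ∀ m : ℕ, Countable (MvPolynomial (Fin m × ℕ) ℚ) := fun m =>
    AddMonoidAlgebra.coeff_injective.countable
  have key : ∀ᵐ σ : PrI ∂(@Measure.map Om PrI _ (borel PrI) Λ PP), ∀ (m : ℕ)
      (Q : Fin (m + 2 + 2) → MvPolynomial (Fin m × ℕ) ℚ) (v : Fin (m + 2 + 2) → Fin m × ℕ) (N : ℕ),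
      (∀ a b, a ≠ b → MvPolynomial.pderiv (v b) (Q a) = 0) → σ ∉ BadP ![ν₁, ν₂] Q v N := by
    refine eventually_countable_forall.mpr fun m => eventually_countable_forall.mpr fun Q =>
      eventually_countable_forall.mpr fun v => eventually_countable_forall.mpr fun N => ?_
    by_cases hQ : ∀ a b, a ≠ b → MvPolynomial.pderiv (v b) (Q a) = 0
    · have h0 : (@Measure.map Om PrI _ (borel PrI) Λ PP) (BadP ![ν₁, ν₂] Q v N) = 0 := by
        rw [@Measure.map_apply Om PrI _ (borel PrI) PP Λ hm _ (hcl _ (badP_closed _ Q v N))]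
        exact badP_null hΛ (Nat.lt_succ_self _) _ Q v hQ N
      filter_upwards [compl_mem_ae_iff.2 h0] with σ h _ using h
    · exact Eventually.of_forall fun σ h => absurd h hQ
  filter_upwards [key] with σ hσ a b c ν' hc hν' m Q v N hQ
  rintro ⟨t, h1, h2, h3⟩
  have hN : (0 : ℝ) < 1 / ((N : ℝ) + 1) := by positivity
  have hjet : (fun p : Fin m × ℕ => jt p.2 ν' (t p.1)) = YY ![ν₁, ν₂] σ (t, ![a, b], c) := by
    funext p
    have := hν' _ (kk_continuous p.2 (show 0 < t p.1 by linarith [(h1 p.1).1]))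
    simp only [YY, jt, Fin.sum_univ_two, Matrix.cons_val_zero, Matrix.cons_val_one]
    exact this
  rw [hjet] at h3
  have e4 : ∀ᶠ M : ℕ in atTop, ∀ i, -(M : ℝ) ≤ ![a, b] i ∧ ![a, b] i ≤ M :=
    eventually_all.mpr fun i => big_ev _
  obtain ⟨M, n1, n2, n4, n5, n6⟩ := ((small_ev hN).and ((big_ev (N : ℝ)).and (e4.and
    ((big_ev c).and (small_ev (abs_pos.mpr hc)))))).exists
  refine hσ _ Q v M hQ ⟨(t, ![a, b], c), ⟨⟨fun i => ?_, fun i => (n4 i).1, n5.1⟩,
    ⟨fun i => (h1 i).2.trans n2.2, fun i => (n4 i).2, n5.2⟩⟩,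
    fun i j hij => n1.trans (h2 i j hij), n6, fun e => ⟨(h3 e).1, n1.trans (h3 e).2⟩⟩
  change 1 + 1 / ((M : ℝ) + 1) ≤ t i
  linarith [(h1 i).1]

theorem GG_generic : ∀ ν ∈ GG, IsGeneric (fMeas ν) := by
  classical
  intro ν hν S hS
  by_contra hne
  push Not at hne
  let e : Fin S.card ≃ S := S.equivFin.symm
  let t : Fin S.card → ℝ := fun i => e i
  have ht : ∀ i, 1 < t i := fun i => hS _ (e i).2
  have hinj : Function.Injective t := Subtype.val_injective.comp e.injective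
  obtain ⟨Q, v, h1, h2, h3⟩ := exists_blocks (fun p : Fin S.card × ℕ => jt p.2 ν (t p.1))
    (fun K hK => by
      refine hne (K + 1) ?_
      have := hK.comp (fun p : S × ℕ => (e.symm p.1, p.2)) (fun p q h => by
        simp only [Prod.mk.injEq, EmbeddingLike.apply_eq_iff_eq] at h
        exact Prod.ext h.1 h.2)
      convert this using 2 with p
      have hp : 0 < (p.1 : ℝ) := lt_trans one_pos (hS _ p.1.2)
      rw [show K + 1 + p.2 = K + p.2 + 1 by ring, iteratedDeriv_fMeas ν _ hp]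
      simp [t]) (S.card + 2 + 2)
  have e1 : ∀ᶠ N : ℕ in atTop, ∀ i, 1 + 1 / ((N : ℝ) + 1) ≤ t i ∧ t i ≤ N := by
    refine eventually_all.mpr fun i => ?_
    filter_upwards [small_ev (c := t i - 1) (by linarith [ht i]), big_ev (t i)] with N ha hb
    exact ⟨by linarith, hb.2⟩
  have e2 : ∀ᶠ N : ℕ in atTop, ∀ i j, i ≠ j → 1 / ((N : ℝ) + 1) ≤ |t i - t j| := by
    refine eventually_all.mpr fun i => eventually_all.mpr fun j => eventually_all.mpr fun hij => ?_
    exact small_ev (abs_pos.mpr (sub_ne_zero.mpr fun h => hij (hinj h)))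
  have e3 : ∀ᶠ N : ℕ in atTop, ∀ a, 1 / ((N : ℝ) + 1) ≤
      |MvPolynomial.aeval (fun p : Fin S.card × ℕ => jt p.2 ν (t p.1))
        (MvPolynomial.pderiv (v a) (Q a))| :=
    eventually_all.mpr fun a => small_ev (abs_pos.mpr (h2 a))
  obtain ⟨N, n1, n2, n3⟩ := (e1.and (e2.and e3)).exists
  exact hν _ Q v N h3 ⟨t, n1, n2, fun a => ⟨h1 a, n3 a⟩⟩

theorem prevalent_generic :
    ∃ G : Set PrI, IsGδ G ∧ IsPrevalent G ∧ ∀ ν ∈ G, IsGeneric (fMeas ν) :=
  ⟨GG, GG_gdelta, GG_prevalent, GG_generic⟩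

/-- A prevalent set is dense. -/
theorem dense_of_prevalent {G : Set PrI} (h : IsPrevalent G) : Dense G := by
  obtain ⟨μ, hμ, h⟩ := h
  intro ν
  have hne : (ae μ).NeBot := ae_neBot.2 fun e => by simp [e] at hμ
  obtain ⟨σ, hσ⟩ := (h ν ν).exists
  have hη : ∀ k : ℕ, (0 : ℝ) < 1 / ((k : ℝ) + 1) ∧ 1 / ((k : ℝ) + 1) ≤ 1 := fun k =>
    ⟨by positivity, (nd k).2.2⟩
  choose ν' h2 using fun k : ℕ => Baire_mix ν σ (hη k).1.le (hη k).2
  refine mem_closure_of_tendsto (f := ν') (b := atTop) ?_ (Eventually.of_forall fun k =>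
    hσ (1 - 1 / ((k : ℝ) + 1)) 0 _ _ (hη k).1.ne' fun g hg => by rw [h2 k g hg]; ring)
  rw [ProbabilityMeasure.tendsto_iff_forall_integral_tendsto]
  intro g
  simp only [h2 _ g g.continuous]
  have t0 : Tendsto (fun k : ℕ => 1 / ((k : ℝ) + 1)) atTop (𝓝 0) :=
    tendsto_one_div_add_atTop_nhds_zero_nat
  simpa using ((tendsto_const_nhds (x := (1 : ℝ)).sub t0).mul_const
    (∫ s, g s ∂(ν : Measure (Icc (0 : ℝ) 1)))).add
    (t0.mul_const (∫ s, g s ∂(σ : Measure (Icc (0 : ℝ) 1))))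

/-- The new clause implies the old one. -/
theorem residual_of_clause {S : Set PrI} (h : ∃ G : Set PrI, IsGδ G ∧ IsPrevalent G ∧ ∀ ν ∈ G, ν ∈ S) :
    S ∈ residual PrI := by
  obtain ⟨G, h1, h2, h3⟩ := h
  exact mem_of_superset (residual_of_dense_Gδ h1 (dense_of_prevalent h2)) h3

end Pool.Agent.Work.MP_2482e4_mp.Pv
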