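import Mathlib

open MeasureTheory

namespace Pool.Agent.Work.MP_2482e4_mp

/-- There is a Borel probability measure `μ` on the probability measures on `[0, 1]` (weak
topology) such that for all `ν₁`, `ν₂` and `μ`-almost every `σ`, each probability measure
`ν' = a • ν₁ + b • ν₂ + c • σ` with real `a`, `b` and real `c ≠ 0` lies in `S`. -/
def IsPrevalent (S : Set (ProbabilityMeasure (Set.Icc (0 : ℝ) 1))) : Prop :=
  ∃ μ : @Measure (ProbabilityMeasure (Set.Icc (0 : ℝ) 1)) (borel _), μ Set.univ = 1 ∧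
    ∀ ν₁ ν₂ : ProbabilityMeasure (Set.Icc (0 : ℝ) 1),
      ∀ᵐ σ : ProbabilityMeasure (Set.Icc (0 : ℝ) 1) ∂μ, ∀ (a b c : ℝ)
        (ν' : ProbabilityMeasure (Set.Icc (0 : ℝ) 1)), c ≠ 0 →
        (∀ g : Set.Icc (0 : ℝ) 1 → ℝ, Continuous g →
          ∫ s, g s ∂(ν' : Measure (Set.Icc (0 : ℝ) 1)) =
            a * ∫ s, g s ∂(ν₁ : Measure (Set.Icc (0 : ℝ) 1))
              + b * ∫ s, g s ∂(ν₂ : Measure (Set.Icc (0 : ℝ) 1))
              + c * ∫ s, g s ∂(σ : Measure (Set.Icc (0 : ℝ) 1))) → ν' ∈ S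

end Pool.Agent.Work.MP_2482e4_mp
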