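import Pool.Agent.Work.MP_2482e4_mp.Gn.Baire
import Pool.Agent.Work.MP_2482e4_mp.Pv.Defs

/-!
A random measure with independent uniform weights on a fixed sequence of atoms.
-/

open scoped Topology
open Filter Set MeasureTheory

namespace Pool.Agent.Work.MP_2482e4_mp.Pv

open Pool.Agent.Work.MP_2482e4_mp.Gn

/-- Sequences of weights. -/
abbrev Om := ℕ → unitInterval

/-- The product of uniform measures. -/
noncomputable def PP : Measure Om := Measure.infinitePi fun _ => (volume : Measure unitInterval)

instance PP_prob : IsProbabilityMeasure PP := by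
  unfold PP
  infer_instance

/-- Replace the first `D` coordinates. -/
def glue (D : ℕ) (x : Om × Om) : Om := fun k => if k < D then x.2 k else x.1 k

theorem glue_meas (D : ℕ) : Measurable (glue D) := by
  refine measurable_pi_lambda _ fun k => ?_
  unfold glue
  split_ifs
  · exact (measurable_pi_apply k).comp measurable_snd
  · exact (measurable_pi_apply k).comp measurable_fst

theorem glue_map (D : ℕ) : (PP.prod PP).map (glue D) = PP := by
  refine Measure.eq_infinitePi _ fun s t ht => ?_
  have hm : MeasurableSet (Set.pi (s : Set ℕ) t) :=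
    MeasurableSet.pi s.countable_toSet fun i _ => ht i
  have e : glue D ⁻¹' Set.pi (s : Set ℕ) t =
      Set.pi (↑(s.filter fun k => ¬ k < D) : Set ℕ) t ×ˢ
        Set.pi (↑(s.filter fun k => k < D) : Set ℕ) t := by
    ext x
    simp only [mem_preimage, Set.mem_pi, Finset.mem_coe, Set.mem_prod, Finset.mem_filter, glue]
    constructor
    · intro h
      refine ⟨fun i hi => ?_, fun i hi => ?_⟩
      · have := h i hi.1
        rwa [if_neg hi.2] at this
      · have := h i hi.1
        rwa [if_pos hi.2] at this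
    · rintro ⟨h1, h2⟩ i hi
      by_cases c : i < D
      · rw [if_pos c]
        exact h2 i ⟨hi, c⟩
      · rw [if_neg c]
        exact h1 i ⟨hi, c⟩
  rw [Measure.map_apply (glue_meas D) hm, e, Measure.prod_prod]
  unfold PP
  rw [Measure.infinitePi_pi _ fun i _ => ht i, Measure.infinitePi_pi _ fun i _ => ht i, mul_comm,
    Finset.prod_filter_mul_prod_filter_not]

theorem null_of_sections (D : ℕ) {B : Set Om} (hB : MeasurableSet B)
    (h : ∀ u, PP {w | glue D (u, w) ∈ B} = 0) : PP B = 0 := by
  rw [← glue_map D, Measure.map_apply (glue_meas D) hB]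
  exact Measure.measure_prod_null_of_ae_null (glue_meas D hB) (Eventually.of_forall fun u => h u)

/-- The first `D` weights as real numbers. -/
def res (D : ℕ) (w : Om) : Finset.range D → ℝ := fun j => w j

theorem res_null (D : ℕ) {S : Set (Finset.range D → ℝ)} (hS : volume S = 0) :
    PP (res D ⁻¹' S) = 0 := by
  have h1 : MeasurePreserving (Finset.range D).restrict PP
      (Measure.pi fun _ : Finset.range D => (volume : Measure unitInterval)) :=
    ⟨Finset.measurable_restrict _, Measure.infinitePi_map_restrict _⟩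
  have h2 := measurePreserving_pi (fun _ : Finset.range D => (volume : Measure unitInterval))
    (fun _ => (volume : Measure ℝ).restrict unitInterval)
    (fun _ => unitInterval.measurePreserving_coe)
  have h3 : (Measure.pi fun _ : Finset.range D => (volume : Measure ℝ).restrict unitInterval) S
      = 0 := by
    rw [← Measure.restrict_pi_pi]
    exact le_antisymm ((Measure.restrict_apply_le _ _).trans hS.le) zero_le
  exact (h2.comp h1).quasiMeasurePreserving.preimage_null h3

/-- The atoms. -/
noncomputable def nd (k : ℕ) : Icc (0 : ℝ) 1 :=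
  ⟨1 / ((k : ℝ) + 1), by positivity, by
    rw [div_le_one (by positivity)]
    have : (0 : ℝ) ≤ k := Nat.cast_nonneg k
    linarith⟩

/-- The atom at zero. -/
def nz : Icc (0 : ℝ) 1 := ⟨0, le_rfl, zero_le_one⟩

/-- The largest weights. -/
noncomputable def wt (k : ℕ) : ℝ := 1 / 2 / 2 ^ k

theorem wt_pos (k : ℕ) : 0 < wt k := by
  unfold wt
  positivity

theorem wt_summable : Summable wt := summable_geometric_two' 1

theorem wt_sum : ∑' k, wt k = 1 := tsum_geometric_two' 1

theorem wt_bound (u : Om) {e : ℕ → ℝ} {C : ℝ} (he : ∀ k, |e k| ≤ C) (k : ℕ) :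
    ‖wt k * u k * e k‖ ≤ wt k * C := by
  rw [Real.norm_eq_abs, abs_mul, abs_mul, abs_of_pos (wt_pos k), abs_of_nonneg (u k).2.1]
  have h1 : wt k * u k ≤ wt k := mul_le_of_le_one_right (wt_pos k).le (u k).2.2
  exact mul_le_mul h1 (he k) (abs_nonneg _) (wt_pos k).le

theorem wt_summable' (u : Om) {e : ℕ → ℝ} {C : ℝ} (he : ∀ k, |e k| ≤ C) :
    Summable fun k => wt k * u k * e k :=
  Summable.of_norm_bounded (wt_summable.mul_right C) (wt_bound u he)

theorem exists_bound {g : Icc (0 : ℝ) 1 → ℝ} (hg : Continuous g) : ∃ C, ∀ s, |g s| ≤ C := by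
  obtain ⟨C, hC⟩ := (isCompact_univ.image hg).isBounded.exists_norm_le
  exact ⟨C, fun s => hC _ ⟨s, mem_univ _, rfl⟩⟩

theorem exists_Lam : ∃ Λ : Om → PrI, ∀ (u : Om) (g : Icc (0 : ℝ) 1 → ℝ), Continuous g →
    ∫ s, g s ∂(Λ u : Measure (Icc (0 : ℝ) 1)) =
      g nz + ∑' k, wt k * u k * (g (nd k) - g nz) := by
  have h0 : ∀ (u : Om) k, 0 ≤ wt k * u k := fun u k => mul_nonneg (wt_pos k).le (u k).2.1
  have hs : ∀ u : Om, Summable fun k => wt k * u k := fun u => by
    simpa using wt_summable' u (e := fun _ => 1) (C := 1) (fun _ => by simp)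
  have h1 : ∀ u : Om, ∑' k, wt k * u k ≤ 1 := fun u => by
    rw [← wt_sum]
    exact (hs u).tsum_le_tsum (fun k => mul_le_of_le_one_right (wt_pos k).le (u k).2.2) wt_summable
  have hm : ∀ u : Om, (Measure.sum fun k => ENNReal.ofReal (wt k * u k) • Measure.dirac (nd k))
      univ = ENNReal.ofReal (∑' k, wt k * u k) := fun u => by
    rw [Measure.sum_apply _ MeasurableSet.univ, ENNReal.ofReal_tsum_of_nonneg (h0 u) (hs u)]
    simp
  refine ⟨fun u => ⟨(Measure.sum fun k => ENNReal.ofReal (wt k * u k) • Measure.dirac (nd k))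
    + ENNReal.ofReal (1 - ∑' k, wt k * u k) • Measure.dirac nz, ⟨?_⟩⟩, fun u g hg => ?_⟩
  · rw [Measure.add_apply, hm, Measure.smul_apply, measure_univ, smul_eq_mul, mul_one,
      ← ENNReal.ofReal_add (tsum_nonneg (h0 u)) (by linarith [h1 u])]
    simp
  · have : IsFiniteMeasure
        (Measure.sum fun k => ENNReal.ofReal (wt k * u k) • Measure.dirac (nd k)) :=
      ⟨by rw [hm]; exact ENNReal.ofReal_lt_top⟩
    obtain ⟨C, hC⟩ := exists_bound hg
    change ∫ s, g s ∂((Measure.sum fun k => ENNReal.ofReal (wt k * u k) • Measure.dirac (nd k))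
      + ENNReal.ofReal (1 - ∑' k, wt k * u k) • Measure.dirac nz) = _
    rw [integral_add_measure (Baire_int hg _) ((Baire_int hg _).smul_measure ENNReal.ofReal_ne_top),
      integral_sum_dirac fun _ => ENNReal.ofReal_ne_top, integral_smul_measure, integral_dirac,
      ENNReal.toReal_ofReal (by linarith [h1 u])]
    simp only [ENNReal.toReal_ofReal (h0 u _), smul_eq_mul, mul_sub]
    rw [(wt_summable' u fun k => hC (nd k)).tsum_sub ((hs u).mul_right _), tsum_mul_right]
    ring

theorem Lam_cont {Λ : Om → PrI} (hΛ : ∀ (u : Om) (g : Icc (0 : ℝ) 1 → ℝ), Continuous g →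
    ∫ s, g s ∂(Λ u : Measure (Icc (0 : ℝ) 1)) =
      g nz + ∑' k, wt k * u k * (g (nd k) - g nz)) : Continuous Λ := by
  refine ProbabilityMeasure.continuous_iff_forall_continuous_integral.2 fun g => ?_
  simp only [fun u => hΛ u g g.continuous]
  obtain ⟨C, hC⟩ := exists_bound (g := fun s => g s - g nz) (g.continuous.sub continuous_const)
  exact continuous_const.add (continuous_tsum (fun k => by fun_prop) (wt_summable.mul_right C)
    fun k u => wt_bound u (fun k => hC (nd k)) k)

theorem Lam_glue {Λ : Om → PrI} (hΛ : ∀ (u : Om) (g : Icc (0 : ℝ) 1 → ℝ), Continuous g →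
    ∫ s, g s ∂(Λ u : Measure (Icc (0 : ℝ) 1)) =
      g nz + ∑' k, wt k * u k * (g (nd k) - g nz)) (D : ℕ) (u w : Om) {g : Icc (0 : ℝ) 1 → ℝ}
    (hg : Continuous g) :
    ∫ s, g s ∂(Λ (glue D (u, w)) : Measure (Icc (0 : ℝ) 1)) =
      ∫ s, g s ∂(Λ (glue D (u, 0)) : Measure (Icc (0 : ℝ) 1))
        + ∑ j : Finset.range D, wt j * res D w j * (g (nd j) - g nz) := by
  obtain ⟨C, hC⟩ := exists_bound (g := fun s => g s - g nz) (hg.sub continuous_const)
  have e : ∀ k, wt k * glue D (u, w) k * (g (nd k) - g nz) =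
      wt k * glue D (u, 0) k * (g (nd k) - g nz)
        + if k ∈ Finset.range D then wt k * w k * (g (nd k) - g nz) else 0 := fun k => by
    by_cases c : k < D <;> simp [glue, c]
  have z : ∀ k ∉ Finset.range D,
      (if k ∈ Finset.range D then wt k * w k * (g (nd k) - g nz) else 0) = 0 :=
    fun k hk => if_neg hk
  rw [hΛ _ g hg, hΛ _ g hg, tsum_congr e,
    (wt_summable' _ fun k => hC (nd k)).tsum_add (summable_of_ne_finset_zero z), tsum_eq_sum z,
    Finset.sum_congr rfl fun k hk => if_pos hk, add_assoc]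
  congr 2
  exact (Finset.sum_coe_sort (Finset.range D) fun k => wt k * w k * (g (nd k) - g nz)).symm

end Pool.Agent.Work.MP_2482e4_mp.Pv
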